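import Mathlib
import Pool.Agent.Lib.MP_da03c4_co.Plane

/-!
# A semi-translation plane with a ternary field that is not linear over the Baer subplane

The definitions (`Subplane`, `IsSemiTranslationPlane`, `Frame`, `Frame.tern`, ...) are in
`Pool/Agent/Lib/MP_da03c4_co/Defs.lean`; the plane is constructed in
`Pool/Agent/Lib/MP_da03c4_co/Plane.lean`.
-/

namespace Pool.Agent.Results.MP_da03c4_co.NonLinear

open Pool.Agent.MP_da03c4_co Configuration

/-- There are a projective plane `(P, L)`, a line `W`, a Baer subplane `Q` making `P ∖ W` a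
semi-translation plane, and a quadrangle `o, e, u, v` of `Q` with `u, v` on `W`, such that the
ternary field `𝔗(o,e,u,v)` is not `𝔔`-linear. -/
theorem result : ∃ (P L : Type) (_ : Membership P L) (_ : ProjectivePlane P L) (W : L)
    (Q : Subplane P L) (F : Frame (P := P) W),
    IsSemiTranslationPlane W Q ∧ F.InSubplane Q ∧ ¬ F.IsLinearOver Q :=
  ⟨Pt, Ln, inferInstance, plane, Ln.W, Q, F, isSemiTranslationPlane, F_in, not_linear⟩

end Pool.Agent.Results.MP_da03c4_co.NonLinear
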